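import Pool.Agent.N728.QL.Def

/-! # QL/AV1: parallelograms whose discriminant is divisible by `d`, or zero -/

set_option autoImplicit false

namespace Pool.Agent.N608.QL

open Finset
open Pool.Agent.N728.QL

/-- The discriminant of a parallelogram over a ring. -/
def DF {F : Type*} [CommRing F] (c M A A' C C' x t r : F) : F :=
  (x * (x + t * A) * (x + r * A') * (x + t * A + r * A')) *
  ((t * (c * A - M * C * x * (x + t * A))) *
   (r * (c * A' - M * C' * x * (x + r * A'))) *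
   (c * (t * A + r * A') - M * (t * C + r * C') * x * (x + t * A + r * A')) *
   (c * (r * A' - t * A) + M * (t * C - r * C') * (x + t * A) * (x + r * A')) *
   (r * (c * A' - M * C' * (x + t * A) * (x + t * A + r * A'))) *
   (t * (c * A - M * C * (x + r * A') * (x + t * A + r * A'))))

theorem DF_map {F G : Type*} [CommRing F] [CommRing G] (f : F →+* G) (c M A A' C C' x t r : F) :
    f (DF c M A A' C C' x t r) = DF (f c) (f M) (f A) (f A') (f C) (f C') (f x) (f t) (f r) := by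
  simp [DF]

theorem Dl_eq (c : ℤ) (M : ℕ) (A A' C C' x t r : ℤ) :
    Dl c M (xs A A' x t r) (ts C C' t r) = DF c (M : ℤ) A A' C C' x t r := by
  have h : (univ : Finset (Fin 4 × Fin 4)).filter (fun ij => ij.1 < ij.2) =
      {(0, 1), (0, 2), (0, 3), (1, 2), (1, 3), (2, 3)} := by decide
  have h0 : xs A A' x t r 0 = x := rfl
  have h1 : xs A A' x t r 1 = x + t * A := rfl
  have h2 : xs A A' x t r 2 = x + r * A' := rfl
  have h3 : xs A A' x t r 3 = x + t * A + r * A' := rfl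
  have g0 : ts C C' t r 0 = 0 := rfl
  have g1 : ts C C' t r 1 = t * C := rfl
  have g2 : ts C C' t r 2 = r * C' := rfl
  have g3 : ts C C' t r 3 = t * C + r * C' := rfl
  unfold Dl DF
  rw [h, Fin.prod_univ_four, Finset.prod_insert (by decide), Finset.prod_insert (by decide),
    Finset.prod_insert (by decide), Finset.prod_insert (by decide),
    Finset.prod_insert (by decide), Finset.prod_singleton]
  simp only [h0, h1, h2, h3, g0, g1, g2, g3]
  have d1 : (M : ℤ) * x * (x + t * A) * (0 - t * C) + c * (x + t * A - x) =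
    t * (c * A - M * C * x * (x + t * A)) := by ring
  have d2 : (M : ℤ) * x * (x + r * A') * (0 - r * C') + c * (x + r * A' - x) =
    r * (c * A' - M * C' * x * (x + r * A')) := by ring
  have d3 : (M : ℤ) * x * (x + t * A + r * A') * (0 - (t * C + r * C')) +
    c * (x + t * A + r * A' - x) =
    c * (t * A + r * A') - M * (t * C + r * C') * x * (x + t * A + r * A') := by ring
  have d4 : (M : ℤ) * (x + t * A) * (x + r * A') * (t * C - r * C') +
    c * (x + r * A' - (x + t * A)) =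
    c * (r * A' - t * A) + M * (t * C - r * C') * (x + t * A) * (x + r * A') := by ring
  have d5 : (M : ℤ) * (x + t * A) * (x + t * A + r * A') * (t * C - (t * C + r * C')) +
    c * (x + t * A + r * A' - (x + t * A)) =
    r * (c * A' - M * C' * (x + t * A) * (x + t * A + r * A')) := by ring
  have d6 : (M : ℤ) * (x + r * A') * (x + t * A + r * A') * (r * C' - (t * C + r * C')) +
    c * (x + t * A + r * A' - (x + r * A')) =
    t * (c * A - M * C * (x + r * A') * (x + t * A + r * A')) := by ring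
  rw [d1, d2, d3, d4, d5, d6]
  simp only [mul_assoc]

section dom

variable {F : Type*} [CommRing F] [IsDomain F]

/-- the same as a polynomial in `x` -/
noncomputable def QP (c M A A' C C' t r : F) : Polynomial F :=
  DF (Polynomial.C c) (Polynomial.C M) (Polynomial.C A) (Polynomial.C A') (Polynomial.C C)
    (Polynomial.C C') Polynomial.X (Polynomial.C t) (Polynomial.C r)

theorem QP_eval (c M A A' C C' t r x : F) :
    (QP c M A A' C C' t r).eval x = DF c M A A' C C' x t r := by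
  simp [QP, DF]

theorem QP_deg (c M A A' C C' t r : F) : (QP c M A A' C C' t r).natDegree ≤ 16 := by
  unfold QP DF
  compute_degree

theorem QP_ne {c M A A' C C' t r : F} (hc : c ≠ 0) (hA : A ≠ 0) (hA' : A' ≠ 0) (ht : t ≠ 0)
    (hr : r ≠ 0) (h1 : t * A + r * A' ≠ 0) (h2 : r * A' - t * A ≠ 0) :
    QP c M A A' C C' t r ≠ 0 := by
  have key : ∀ (P : Polynomial F) (x : F), P.eval x ≠ 0 → P ≠ 0 := by
    rintro P x h rfl
    simp at h
  unfold QP DF
  have hX : (Polynomial.X : Polynomial F) ≠ 0 := Polynomial.X_ne_zero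
  refine mul_ne_zero (mul_ne_zero (mul_ne_zero (mul_ne_zero hX ?_) ?_) ?_)
    (mul_ne_zero (mul_ne_zero (mul_ne_zero (mul_ne_zero (mul_ne_zero ?_ ?_) ?_) ?_) ?_) ?_)
  · rw [← Polynomial.C_mul]; exact Polynomial.X_add_C_ne_zero _
  · rw [← Polynomial.C_mul]; exact Polynomial.X_add_C_ne_zero _
  · rw [← Polynomial.C_mul, ← Polynomial.C_mul, add_assoc, ← Polynomial.C_add]
    exact Polynomial.X_add_C_ne_zero _
  · refine key _ 0 ?_
    simp [ht, hc, hA]
  · refine key _ 0 ?_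
    simp [hr, hc, hA']
  · refine key _ 0 ?_
    simp [hc, h1]
  · refine key _ (-(t * A)) ?_
    simp [hc, h2]
  · refine key _ (-(t * A)) ?_
    simp [hr, hc, hA']
  · refine key _ (-(r * A')) ?_
    simp [ht, hc, hA]

theorem card_x [DecidableEq F] {c M A A' C C' t r : F} (hc : c ≠ 0) (hA : A ≠ 0) (hA' : A' ≠ 0)
    (ht : t ≠ 0) (hr : r ≠ 0) (h1 : t * A + r * A' ≠ 0) (h2 : r * A' - t * A ≠ 0)
    (S : Finset F) : (S.filter (fun x => DF c M A A' C C' x t r = 0)).card ≤ 16 := by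
  have hne := QP_ne (M := M) (C := C) (C' := C') hc hA hA' ht hr h1 h2
  have hsub : S.filter (fun x => DF c M A A' C C' x t r = 0) ⊆
      (QP c M A A' C C' t r).roots.toFinset := by
    intro x hx
    rw [mem_filter] at hx
    rw [Multiset.mem_toFinset, Polynomial.mem_roots hne, Polynomial.IsRoot, QP_eval]
    exact hx.2
  exact (card_le_card hsub).trans ((Multiset.toFinset_card_le _).trans
    ((Polynomial.card_roots' _).trans (QP_deg _ _ _ _ _ _ _ _)))

/-- The number of zeros in a box, over a domain. -/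
theorem count [DecidableEq F] {c M A A' C C' : F} (hc : c ≠ 0) (hA : A ≠ 0) (hA' : A' ≠ 0)
    (S1 S2 S3 : Finset F) :
    ((S1 ×ˢ (S2 ×ˢ S3)).filter (fun v => DF c M A A' C C' v.1 v.2.1 v.2.2 = 0)).card ≤
      16 * (S2.card * S3.card) + S1.card * (S3.card + 3 * S2.card) := by
  classical
  set dg : F × F → Prop := fun u => u.1 = 0 ∨ u.2 = 0 ∨ u.1 * A + u.2 * A' = 0 ∨
    u.2 * A' - u.1 * A = 0 with hdg
  set G := (S1 ×ˢ (S2 ×ˢ S3)).filter
    (fun v => DF c M A A' C C' v.1 v.2.1 v.2.2 = 0 ∧ ¬ dg v.2) with hG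
  set B := S1 ×ˢ ((S2 ×ˢ S3).filter dg) with hB
  have hsub : (S1 ×ˢ (S2 ×ˢ S3)).filter (fun v => DF c M A A' C C' v.1 v.2.1 v.2.2 = 0) ⊆
      G ∪ B := by
    intro v hv
    rw [mem_filter, mem_product] at hv
    simp only [mem_union, hG, hB, mem_filter, mem_product (s := S1)]
    by_cases h : dg v.2
    · exact Or.inr ⟨hv.1.1, hv.1.2, h⟩
    · exact Or.inl ⟨hv.1, hv.2, h⟩
  have hGc : G.card ≤ 16 * (S2.card * S3.card) := by
    have h1 : G.card ≤ 16 * (G.image Prod.snd).card := by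
      apply Finset.card_le_mul_card_image
      intro u hu
      obtain ⟨v, hv, rfl⟩ := mem_image.1 hu
      rw [hG, mem_filter] at hv
      have hnd := hv.2.2
      simp only [hdg, not_or] at hnd
      refine le_trans ?_ (card_x (M := M) (C := C) (C' := C') hc hA hA' hnd.1 hnd.2.1 hnd.2.2.1
        hnd.2.2.2 S1)
      apply card_le_card_of_injOn Prod.fst
      · intro w hw
        simp only [coe_filter, Set.mem_ofPred_eq] at hw
        have hw1 := (mem_filter.1 hw.1)
        simp only [coe_filter, Set.mem_ofPred_eq]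
        refine ⟨(mem_product.1 hw1.1).1, ?_⟩
        have := hw1.2.1
        rw [hw.2] at this
        exact this
      · intro w hw w' hw' h
        simp only [coe_filter, Set.mem_ofPred_eq] at hw hw'
        exact Prod.ext h (hw.2.trans hw'.2.symm)
    refine h1.trans (Nat.mul_le_mul_left _ ?_)
    rw [← card_product]
    apply card_le_card
    intro u hu
    obtain ⟨v, hv, rfl⟩ := mem_image.1 hu
    exact (mem_product.1 (mem_filter.1 hv).1).2
  have hBc : B.card ≤ S1.card * (S3.card + 3 * S2.card) := by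
    rw [hB, card_product]
    apply Nat.mul_le_mul_left
    have hs : (S2 ×ˢ S3).filter dg ⊆ ((S2 ×ˢ S3).filter (fun u => u.1 = 0)) ∪
        (((S2 ×ˢ S3).filter (fun u => u.2 = 0)) ∪
        (((S2 ×ˢ S3).filter (fun u => u.1 * A + u.2 * A' = 0)) ∪
        ((S2 ×ˢ S3).filter (fun u => u.2 * A' - u.1 * A = 0)))) := by
      intro u hu
      rw [mem_filter] at hu
      simp only [mem_union, mem_filter]
      rcases hu.2 with h | h | h | h
      · exact Or.inl ⟨hu.1, h⟩
      · exact Or.inr (Or.inl ⟨hu.1, h⟩)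
      · exact Or.inr (Or.inr (Or.inl ⟨hu.1, h⟩))
      · exact Or.inr (Or.inr (Or.inr ⟨hu.1, h⟩))
    have c1 : ((S2 ×ˢ S3).filter (fun u => u.1 = 0)).card ≤ S3.card := by
      apply card_le_card_of_injOn Prod.snd
      · intro w hw
        simp only [coe_filter, Set.mem_ofPred_eq, mem_product] at hw
        exact hw.1.2
      · intro w hw w' hw' h
        simp only [coe_filter, Set.mem_ofPred_eq] at hw hw'
        exact Prod.ext (hw.2.trans hw'.2.symm) h
    have inj : ∀ (P : F × F → Prop) [DecidablePred P],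
        (∀ a b b' : F, P (a, b) → P (a, b') → b = b') →
        ((S2 ×ˢ S3).filter P).card ≤ S2.card := by
      intro P _ hP
      apply card_le_card_of_injOn Prod.fst
      · intro w hw
        simp only [coe_filter, Set.mem_ofPred_eq, mem_product] at hw
        exact hw.1.1
      · rintro ⟨a, b⟩ hw ⟨a', b'⟩ hw' h
        simp only [coe_filter, Set.mem_ofPred_eq] at hw hw' h
        subst h
        rw [hP a b b' hw.2 hw'.2]
    have c2 := inj (fun u => u.2 = 0) (fun a b b' h h' => h.trans h'.symm)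
    have c3 := inj (fun u => u.1 * A + u.2 * A' = 0) (fun a b b' h h' => by
      simp only at h h'
      have : (b - b') * A' = 0 := by linear_combination h - h'
      rcases mul_eq_zero.1 this with h0 | h0
      · exact sub_eq_zero.1 h0
      · exact absurd h0 hA')
    have c4 := inj (fun u => u.2 * A' - u.1 * A = 0) (fun a b b' h h' => by
      simp only at h h'
      have : (b - b') * A' = 0 := by linear_combination h - h'
      rcases mul_eq_zero.1 this with h0 | h0
      · exact sub_eq_zero.1 h0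
      · exact absurd h0 hA')
    refine (card_le_card hs).trans ?_
    refine (card_union_le _ _).trans ?_
    have d1 := card_union_le ((S2 ×ˢ S3).filter (fun u => u.2 = 0))
        (((S2 ×ˢ S3).filter (fun u => u.1 * A + u.2 * A' = 0)) ∪
        ((S2 ×ˢ S3).filter (fun u => u.2 * A' - u.1 * A = 0)))
    have d2 := card_union_le ((S2 ×ˢ S3).filter (fun u => u.1 * A + u.2 * A' = 0))
        ((S2 ×ˢ S3).filter (fun u => u.2 * A' - u.1 * A = 0))
    omega
  exact (card_le_card hsub).trans ((card_union_le _ _).trans (add_le_add hGc hBc))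

end dom

/-- The number of zeros modulo `d`. -/
noncomputable def Nd (c M A A' C C' : ℤ) (d : ℕ) : ℕ :=
  Nat.card {v : ZMod d × ZMod d × ZMod d //
    DF (c : ZMod d) M A A' C C' v.1 v.2.1 v.2.2 = 0}

theorem Nd_prime {c M A A' : ℤ} (C C' : ℤ) {p : ℕ} (hp : p.Prime) (hc : ¬ (p : ℤ) ∣ c)
    (hA : ¬ (p : ℤ) ∣ A) (hA' : ¬ (p : ℤ) ∣ A') : Nd c M A A' C C' p ≤ 20 * p ^ 2 := by
  classical
  have : Fact p.Prime := ⟨hp⟩
  have e : Nd c M A A' C C' p = ((univ ×ˢ (univ ×ˢ univ) : Finset (ZMod p × ZMod p × ZMod p)).filter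
      (fun v => DF (c : ZMod p) M A A' C C' v.1 v.2.1 v.2.2 = 0)).card := by
    rw [Nd, Nat.card_eq_fintype_card, Fintype.card_subtype]
    rfl
  rw [e]
  have h := count (M := (M : ZMod p)) (C := (C : ZMod p)) (C' := (C' : ZMod p))
    (c := (c : ZMod p)) (A := (A : ZMod p)) (A' := (A' : ZMod p))
    (by rwa [Ne, ZMod.intCast_zmod_eq_zero_iff_dvd]) (by rwa [Ne, ZMod.intCast_zmod_eq_zero_iff_dvd])
    (by rwa [Ne, ZMod.intCast_zmod_eq_zero_iff_dvd]) univ univ univ
  rw [card_univ, ZMod.card] at h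
  refine h.trans (le_of_eq ?_)
  ring

theorem Nd_mul (c M A A' C C' : ℤ) {a b : ℕ} (h : Nat.Coprime a b) :
    Nd c M A A' C C' (a * b) = Nd c M A A' C C' a * Nd c M A A' C C' b := by
  classical
  let φ : ZMod (a * b) ≃+* ZMod a × ZMod b := ZMod.chineseRemainder h
  have e1 : ∀ n : ℤ, φ (n : ZMod (a * b)) = ((n : ZMod a), (n : ZMod b)) := by
    intro n
    rw [map_intCast]
    rfl
  have hz : ∀ v : ZMod (a * b) × ZMod (a * b) × ZMod (a * b),
      DF (c : ZMod (a * b)) M A A' C C' v.1 v.2.1 v.2.2 = 0 ↔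
      DF (c : ZMod a) M A A' C C' (φ v.1).1 (φ v.2.1).1 (φ v.2.2).1 = 0 ∧
      DF (c : ZMod b) M A A' C C' (φ v.1).2 (φ v.2.1).2 (φ v.2.2).2 = 0 := by
    intro v
    rw [← map_eq_zero_iff φ φ.injective]
    have h1 : φ (DF (c : ZMod (a * b)) M A A' C C' v.1 v.2.1 v.2.2) =
      DF (φ c) (φ M) (φ A) (φ A') (φ C) (φ C') (φ v.1) (φ v.2.1) (φ v.2.2) :=
      DF_map φ.toRingHom _ _ _ _ _ _ _ _ _
    rw [h1, Prod.ext_iff]
    have h2 := DF_map (RingHom.fst (ZMod a) (ZMod b)) (φ c) (φ M) (φ A) (φ A') (φ C) (φ C')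
      (φ v.1) (φ v.2.1) (φ v.2.2)
    have h3 := DF_map (RingHom.snd (ZMod a) (ZMod b)) (φ c) (φ M) (φ A) (φ A') (φ C) (φ C')
      (φ v.1) (φ v.2.1) (φ v.2.2)
    simp only [RingHom.coe_fst, RingHom.coe_snd, e1] at h2 h3
    simp only [e1, Prod.fst_zero, Prod.snd_zero]
    rw [h2, h3]
  unfold Nd
  rw [← Nat.card_prod]
  refine Nat.card_congr ⟨fun v => (⟨((φ v.1.1).1, (φ v.1.2.1).1, (φ v.1.2.2).1), ((hz v.1).1 v.2).1⟩,
      ⟨((φ v.1.1).2, (φ v.1.2.1).2, (φ v.1.2.2).2), ((hz v.1).1 v.2).2⟩),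
    fun w => ⟨(φ.symm (w.1.1.1, w.2.1.1), φ.symm (w.1.1.2.1, w.2.1.2.1),
      φ.symm (w.1.1.2.2, w.2.1.2.2)), ?_⟩, ?_, ?_⟩
  · rw [hz]
    simp only [RingEquiv.apply_symm_apply]
    exact ⟨w.1.2, w.2.2⟩
  · rintro ⟨⟨x, t, r⟩, hv⟩
    simp
  · rintro ⟨⟨⟨x, t, r⟩, hv⟩, ⟨⟨x', t', r'⟩, hv'⟩⟩
    simp

theorem Nd_one (c M A A' C C' : ℤ) : Nd c M A A' C C' 1 = 1 := by
  unfold Nd
  rw [Nat.card_eq_one_iff_unique]
  refine ⟨⟨fun v w => Subtype.ext ?_⟩, ⟨⟨(0, 0, 0), ?_⟩⟩⟩
  · exact Subsingleton.elim _ _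
  · exact Subsingleton.elim _ _

theorem Nd_le {c M A A' : ℤ} (C C' : ℤ) {d : ℕ} (hd : Squarefree d)
    (h : ∀ p : ℕ, p.Prime → p ∣ d → ¬ (p : ℤ) ∣ c ∧ ¬ (p : ℤ) ∣ A ∧ ¬ (p : ℤ) ∣ A') :
    Nd c M A A' C C' d ≤ 20 ^ d.primeFactors.card * d ^ 2 := by
  induction d using induction_on_primes with
  | zero => exact absurd hd not_squarefree_zero
  | one => rw [Nd_one]; simp
  | prime_mul p a hp ih =>
    have hco : Nat.Coprime p a := by
      rw [Nat.Prime.coprime_iff_not_dvd hp]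
      rintro ⟨b, rfl⟩
      have : p * p ∣ p * (p * b) := ⟨b, by ring⟩
      exact hp.one_lt.ne' (Nat.isUnit_iff.1 (hd p this))
    have ha : Squarefree a := hd.squarefree_of_dvd (Dvd.intro_left p rfl)
    rw [Nd_mul c M A A' C C' hco]
    have h1 := h p hp (Dvd.intro a rfl)
    have h2 := Nd_prime (M := M) C C' hp h1.1 h1.2.1 h1.2.2
    have h3 := ih ha (fun q hq hqa => h q hq (hqa.mul_left p))
    have h4 : (p * a).primeFactors.card = a.primeFactors.card + 1 := by
      rw [hco.primeFactors_mul, hp.primeFactors, card_union_of_disjoint, card_singleton, add_comm]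
      rw [disjoint_singleton_left]
      intro h5
      exact (Nat.Prime.coprime_iff_not_dvd hp).1 hco (Nat.dvd_of_mem_primeFactors h5)
    rw [h4]
    calc _ ≤ (20 * p ^ 2) * (20 ^ a.primeFactors.card * a ^ 2) := Nat.mul_le_mul h2 h3
      _ = _ := by ring

theorem cls (a b : ℤ) (hab : a ≤ b) {d : ℕ} (hd : 0 < d) (v : ZMod d) :
    (((Ioc a b).filter (fun x : ℤ => (x : ZMod d) = v)).card : ℝ) ≤ ((b : ℝ) - a) / d + 1 := by
  have : NeZero d := ⟨hd.ne'⟩
  obtain ⟨w, rfl⟩ := ZMod.intCast_surjective v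
  have e : (Ioc a b).filter (fun x : ℤ => (x : ZMod d) = (w : ZMod d)) =
      (Ioc a b).filter (fun x : ℤ => x ≡ w [ZMOD d]) := by
    apply filter_congr
    intro x _
    exact ZMod.intCast_eq_intCast_iff x w d
  rw [e]
  have h := Int.Ioc_filter_modEq_card a b (r := (d : ℤ)) (by exact_mod_cast hd) w
  have h2 : (((Ioc a b).filter (fun x : ℤ => x ≡ w [ZMOD d])).card : ℤ) =
    max (⌊((b - w : ℤ) : ℚ) / (d : ℤ)⌋ - ⌊((a - w : ℤ) : ℚ) / (d : ℤ)⌋) 0 := by
    convert h using 3 <;> push_cast <;> rfl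
  have h3 : (((Ioc a b).filter (fun x : ℤ => x ≡ w [ZMOD d])).card : ℚ) ≤
      ((b : ℚ) - a) / d + 1 := by
    have h4 : (((Ioc a b).filter (fun x : ℤ => x ≡ w [ZMOD d])).card : ℚ) =
      ((max (⌊((b - w : ℤ) : ℚ) / (d : ℤ)⌋ - ⌊((a - w : ℤ) : ℚ) / (d : ℤ)⌋) 0 : ℤ) : ℚ) := by
      rw [← h2]; norm_cast
    rw [h4]
    push_cast
    have hdq : (0 : ℚ) < d := by exact_mod_cast hd
    have hab' : (a : ℚ) ≤ b := by exact_mod_cast hab
    apply max_le
    · have f1 := Int.floor_le (((b : ℚ) - w) / d)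
      have f2 := Int.lt_floor_add_one (((a : ℚ) - w) / d)
      have f3 : ((b : ℚ) - a) / d = ((b : ℚ) - w) / d - ((a : ℚ) - w) / d := by ring
      rw [f3]
      linarith
    · have : 0 ≤ ((b : ℚ) - a) / d := div_nonneg (by linarith) hdq.le
      linarith
  have h5 : ((((Ioc a b).filter (fun x : ℤ => x ≡ w [ZMOD d])).card : ℚ) : ℝ) ≤
      ((((b : ℚ) - a) / d + 1 : ℚ) : ℝ) := by exact_mod_cast h3
  push_cast at h5
  exact h5

theorem sum_eq_card (S1 S2 S3 : Finset ℤ) (P : ℤ → ℤ → ℤ → Prop) [∀ a b c, Decidable (P a b c)] :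
    (∑ x ∈ S1, ∑ t ∈ S2, ∑ r ∈ S3, (if P x t r then (1 : ℝ) else 0)) =
      (((S1 ×ˢ (S2 ×ˢ S3)).filter (fun v => P v.1 v.2.1 v.2.2)).card : ℝ) := by
  rw [card_filter, Nat.cast_sum, sum_product]
  apply sum_congr rfl
  intro x _
  rw [sum_product]
  apply sum_congr rfl
  intro t _
  apply sum_congr rfl
  intro r _
  split_ifs <;> simp

theorem Icc_eq (a b : ℤ) : Icc a b = Ioc (a - 1) b := by
  ext x
  simp only [mem_Icc, mem_Ioc]
  omega

theorem box_count (c M A A' C C' : ℤ) {X R R' d : ℕ} (hd : 0 < d) (hX : d ≤ X) (hR : d ≤ R)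
    (hR' : d ≤ R') :
    (((Icc (1 : ℤ) X ×ˢ (Icc (-(R : ℤ)) R ×ˢ Icc (-(R' : ℤ)) R')).filter
      (fun v => (d : ℤ) ∣ DF c M A A' C C' v.1 v.2.1 v.2.2)).card : ℝ) ≤
      Nd c M A A' C C' d * ((2 * X / d) * (4 * R / d) * (4 * R' / d)) := by
  classical
  have : NeZero d := ⟨hd.ne'⟩
  set S := (Icc (1 : ℤ) X ×ˢ (Icc (-(R : ℤ)) R ×ˢ Icc (-(R' : ℤ)) R')).filter
      (fun v => (d : ℤ) ∣ DF c M A A' C C' v.1 v.2.1 v.2.2) with hS
  set Z := (univ : Finset (ZMod d × ZMod d × ZMod d)).filter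
    (fun v => DF (c : ZMod d) M A A' C C' v.1 v.2.1 v.2.2 = 0) with hZ
  have eZ : Nd c M A A' C C' d = Z.card := by
    rw [Nd, Nat.card_eq_fintype_card, Fintype.card_subtype]
  let f : ℤ × ℤ × ℤ → ZMod d × ZMod d × ZMod d := fun v => ((v.1 : ZMod d), (v.2.1 : ZMod d),
    (v.2.2 : ZMod d))
  have hmap : ∀ v ∈ S, f v ∈ Z := by
    intro v hv
    rw [hS, mem_filter] at hv
    rw [hZ, mem_filter]
    refine ⟨mem_univ _, ?_⟩
    have h1 := (ZMod.intCast_zmod_eq_zero_iff_dvd (DF c M A A' C C' v.1 v.2.1 v.2.2) d).2 hv.2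
    have h2 := DF_map (Int.castRingHom (ZMod d)) c M A A' C C' v.1 v.2.1 v.2.2
    simp only [eq_intCast] at h2
    rw [h2] at h1
    exact h1
  have hdr : (0 : ℝ) < d := by exact_mod_cast hd
  have hfib : ∀ u ∈ Z, ((S.filter (fun v => f v = u)).card : ℝ) ≤
      (2 * X / d) * (4 * R / d) * (4 * R' / d) := by
    intro u _
    have h1 : S.filter (fun v => f v = u) ⊆
        ((Icc (1 : ℤ) X).filter (fun x : ℤ => (x : ZMod d) = u.1)) ×ˢ
        (((Icc (-(R : ℤ)) R).filter (fun x : ℤ => (x : ZMod d) = u.2.1)) ×ˢ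
        ((Icc (-(R' : ℤ)) R').filter (fun x : ℤ => (x : ZMod d) = u.2.2))) := by
      intro v hv
      rw [mem_filter, hS, mem_filter, mem_product, mem_product] at hv
      simp only [mem_product, mem_filter]
      have h2 := hv.2
      simp only [f] at h2
      rw [← h2]
      exact ⟨⟨hv.1.1.1, rfl⟩, ⟨hv.1.1.2.1, rfl⟩, ⟨hv.1.1.2.2, rfl⟩⟩
    have h2 := card_le_card h1
    rw [card_product, card_product] at h2
    have h3 : ((S.filter (fun v => f v = u)).card : ℝ) ≤
      (((Icc (1 : ℤ) X).filter (fun x : ℤ => (x : ZMod d) = u.1)).card : ℝ) *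
      ((((Icc (-(R : ℤ)) R).filter (fun x : ℤ => (x : ZMod d) = u.2.1)).card : ℝ) *
      (((Icc (-(R' : ℤ)) R').filter (fun x : ℤ => (x : ZMod d) = u.2.2)).card : ℝ)) := by
      exact_mod_cast h2
    have b1 := cls (1 - 1) (X : ℤ) (by linarith [Int.natCast_nonneg X]) hd u.1
    have b2 := cls (-(R : ℤ) - 1) (R : ℤ) (by linarith [Int.natCast_nonneg R]) hd u.2.1
    have b3 := cls (-(R' : ℤ) - 1) (R' : ℤ) (by linarith [Int.natCast_nonneg R']) hd u.2.2
    rw [← Icc_eq] at b1 b2 b3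
    push_cast at b1 b2 b3
    have hd1 : (1 : ℝ) ≤ d := by exact_mod_cast hd
    have hXr : (d : ℝ) ≤ X := by exact_mod_cast hX
    have hRr : (d : ℝ) ≤ R := by exact_mod_cast hR
    have hRr' : (d : ℝ) ≤ R' := by exact_mod_cast hR'
    have g1 : ((X : ℝ) - 0) / d + 1 ≤ 2 * X / d := by
      rw [div_add_one hdr.ne', div_le_div_iff_of_pos_right hdr]
      linarith
    have g2 : ((R : ℝ) - (-(R : ℝ) - 1)) / d + 1 ≤ 4 * R / d := by
      rw [div_add_one hdr.ne', div_le_div_iff_of_pos_right hdr]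
      linarith
    have g3 : ((R' : ℝ) - (-(R' : ℝ) - 1)) / d + 1 ≤ 4 * R' / d := by
      rw [div_add_one hdr.ne', div_le_div_iff_of_pos_right hdr]
      linarith
    refine h3.trans ?_
    rw [mul_assoc]
    apply mul_le_mul (b1.trans g1) (mul_le_mul (b2.trans g2) (b3.trans g3) (by positivity)
      (by positivity)) (by positivity) (by positivity)
  rw [card_eq_sum_card_fiberwise (f := f) (t := Z) (by
    intro v hv
    exact hmap v hv)]
  push_cast
  refine (sum_le_sum hfib).trans ?_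
  rw [sum_const, nsmul_eq_mul, eZ]

/-- QL/AV1 -/
theorem t_AV1 : ∀ c : ℤ, c ≠ 0 → S_AV1 c := by
  classical
  intro c hc
  refine ⟨200, by norm_num, ?_⟩
  intro M A A' C C' X R R' hM hA hA' hX hR hR'
  have hXr : (1 : ℝ) ≤ X := by exact_mod_cast hX
  have hRr : (1 : ℝ) ≤ R := by exact_mod_cast hR
  have hRr' : (1 : ℝ) ≤ R' := by exact_mod_cast hR'
  constructor
  · intro d hd hp hdX hdR hdR'
    have hd0 : 0 < d := Nat.pos_of_ne_zero hd.ne_zero
    have hdr : (0 : ℝ) < d := by exact_mod_cast hd0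
    have e := sum_eq_card (Icc (1 : ℤ) X) (Icc (-(R : ℤ)) R) (Icc (-(R' : ℤ)) R')
      (fun x t r => (d : ℤ) ∣ Dl c M (xs A A' x t r) (ts C C' t r))
    rw [e]
    simp only [Dl_eq]
    refine (box_count c M A A' C C' hd0 hdX hdR hdR').trans ?_
    have h1 : Nd c M A A' C C' d ≤ 20 ^ d.primeFactors.card * d ^ 2 := by
      apply Nd_le C C' hd
      intro p hpp hpd
      obtain ⟨h2, h3⟩ := hp p hpp hpd
      refine ⟨h3, ?_, ?_⟩
      · intro h4
        exact h2 (((Int.natCast_dvd_natCast.1 h4).mul_left M).mul_right A')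
      · intro h4
        exact h2 ((Int.natCast_dvd_natCast.1 h4).mul_left (M * A))
    have h2 : (Nd c M A A' C C' d : ℝ) ≤ 20 ^ d.primeFactors.card * (d : ℝ) ^ 2 := by
      exact_mod_cast h1
    calc _ ≤ (20 ^ d.primeFactors.card * (d : ℝ) ^ 2) * ((2 * X / d) * (4 * R / d) * (4 * R' / d)) :=
          mul_le_mul_of_nonneg_right h2 (by positivity)
      _ = 32 * 20 ^ d.primeFactors.card / d * ((X : ℝ) * R * R') := by
        field_simp
        ring
      _ ≤ 200 * 20 ^ d.primeFactors.card / d * ((X : ℝ) * R * R') := by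
        gcongr
        norm_num
  · have e := sum_eq_card (Icc (1 : ℤ) X) (Icc (-(R : ℤ)) R) (Icc (-(R' : ℤ)) R')
      (fun x t r => Dl c M (xs A A' x t r) (ts C C' t r) = 0)
    rw [e]
    simp only [Dl_eq]
    have h := count (F := ℤ) (c := c) (M := (M : ℤ)) (A := (A : ℤ)) (A' := (A' : ℤ)) (C := C)
      (C' := C') hc (by positivity) (by positivity) (Icc (1 : ℤ) X) (Icc (-(R : ℤ)) R)
      (Icc (-(R' : ℤ)) R')
    simp only [Int.card_Icc] at h
    have e1 : ((X : ℤ) + 1 - 1).toNat = X := by simp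
    have e2 : ((R : ℤ) + 1 - -(R : ℤ)).toNat = 2 * R + 1 := by omega
    have e3 : ((R' : ℤ) + 1 - -(R' : ℤ)).toNat = 2 * R' + 1 := by omega
    rw [e1, e2, e3] at h
    refine (Nat.cast_le.2 h).trans ?_
    push_cast
    nlinarith [mul_nonneg (by linarith : (0:ℝ) ≤ R - 1) (by linarith : (0:ℝ) ≤ R' - 1),
      mul_nonneg (by linarith : (0:ℝ) ≤ R - 1) (by linarith : (0:ℝ) ≤ (X : ℝ)),
      mul_nonneg (by linarith : (0:ℝ) ≤ R' - 1) (by linarith : (0:ℝ) ≤ (X : ℝ))]

end Pool.Agent.N608.QL
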